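import Pool.Agent.Helper14.LE.St

/-!
Project LE (MP_58b586_gt), module IET: isotropic isotopies extend to Hamiltonian isotopies
-/

set_option autoImplicit false

namespace Pool.Agent.Helper6.LE

open Pool.Agent.Helper14.LK Pool.Agent.Helper14.LE
open scoped ContDiff Topology
open MeasureTheory Set Filter

private theorem IET_theta (t : ℝ) : Real.smoothTransition t ∈ Icc (0 : ℝ) 1 :=
  ⟨Real.smoothTransition.nonneg t, Real.smoothTransition.le_one t⟩

private theorem IET_deriv {E : Type} [NormedAddCommGroup E] [NormedSpace ℝ E] {F : Type}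
    (ι : ℝ → F → E) (x : F) (t : ℝ) (ht : t ∉ Icc (0 : ℝ) 1) :
    deriv (fun s => ι (Real.smoothTransition s) x) t = 0 := by
  rw [mem_Icc, not_and_or, not_le, not_le] at ht
  rcases ht with h | h
  · have h1 : (fun s => ι (Real.smoothTransition s) x) =ᶠ[𝓝 t] fun _ => ι 0 x := by
      filter_upwards [Iio_mem_nhds h] with s hs
      rw [Real.smoothTransition.zero_of_nonpos (le_of_lt hs)]
    rw [h1.deriv_eq, deriv_const]
  · have h1 : (fun s => ι (Real.smoothTransition s) x) =ᶠ[𝓝 t] fun _ => ι 1 x := by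
      filter_upwards [Ioi_mem_nhds h] with s hs
      rw [Real.smoothTransition.one_of_one_le (le_of_lt hs)]
    rw [h1.deriv_eq, deriv_const]

private theorem IET_chain {E F : Type} [NormedAddCommGroup E] [NormedSpace ℝ E]
    [NormedAddCommGroup F] [NormedSpace ℝ F] {j : ℝ → E → F} (hj : ContDiff ℝ ∞ (Function.uncurry j))
    {g : ℝ → E} {g' : E} {t : ℝ} (hg : HasDerivAt g g' t) :
    HasDerivAt (fun s => j s (g s)) (deriv (fun s => j s (g t)) t + fderiv ℝ (j t) (g t) g') t := by
  have hd : DifferentiableAt ℝ (Function.uncurry j) (t, g t) :=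
    (hj.differentiable (by simp)).differentiableAt
  have h1 : HasDerivAt (fun s : ℝ => ((s, g s) : ℝ × E)) (1, g') t := (hasDerivAt_id t).prodMk hg
  have h2 : HasDerivAt (fun s => j s (g s)) (fderiv ℝ (Function.uncurry j) (t, g t) (1, g')) t := by
    have h0 : HasFDerivAt (Function.uncurry j) (fderiv ℝ (Function.uncurry j) (t, g t))
        ((fun s : ℝ => ((s, g s) : ℝ × E)) t) := hd.hasFDerivAt
    exact HasFDerivAt.comp_hasDerivAt t h0 h1
  have h3 : HasDerivAt (fun s : ℝ => ((s, g t) : ℝ × E)) (1, 0) t :=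
    (hasDerivAt_id t).prodMk (hasDerivAt_const t (g t))
  have h4 : HasDerivAt (fun s => j s (g t)) (fderiv ℝ (Function.uncurry j) (t, g t) (1, 0)) t := by
    have h0 : HasFDerivAt (Function.uncurry j) (fderiv ℝ (Function.uncurry j) (t, g t))
        ((fun s : ℝ => ((s, g t) : ℝ × E)) t) := hd.hasFDerivAt
    exact HasFDerivAt.comp_hasDerivAt t h0 h3
  have h5 : HasFDerivAt (fun y : E => ((t, y) : ℝ × E)) (ContinuousLinearMap.inr ℝ ℝ E) (g t) := by
    exact (hasFDerivAt_prodMk_right t (g t))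
  have h6 : HasFDerivAt (j t) ((fderiv ℝ (Function.uncurry j) (t, g t)).comp
      (ContinuousLinearMap.inr ℝ ℝ E)) (g t) := hd.hasFDerivAt.comp (g t) h5
  rw [h4.deriv, h6.fderiv]
  have h7 : fderiv ℝ (Function.uncurry j) (t, g t) (1, g') =
      fderiv ℝ (Function.uncurry j) (t, g t) (1, 0) +
        ((fderiv ℝ (Function.uncurry j) (t, g t)).comp (ContinuousLinearMap.inr ℝ ℝ E)) g' := by
    rw [ContinuousLinearMap.comp_apply, ContinuousLinearMap.inr_apply, ← map_add]
    simp
  rw [← h7]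
  exact h2

private theorem IET_lip {E F : Type} [NormedAddCommGroup E] [NormedSpace ℝ E]
    [NormedAddCommGroup F] [NormedSpace ℝ F] {V : ℝ → E → F} {K : NNReal}
    (h : LipschitzWith K (Function.uncurry V)) (t : ℝ) : LipschitzWith K (V t) := by
  intro x y
  have h1 := h (t, x) (t, y)
  simpa [Function.uncurry, Prod.edist_eq] using h1

theorem hIET (hIEA : StIEA) (hFLO : StFLO) : StIET := by
  intro n hn ι R hι hiso himm hinj hR
  have hθ : ContDiff ℝ ∞ Real.smoothTransition := Real.smoothTransition.contDiff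
  obtain ⟨j, hjd⟩ : ∃ j : ℝ → EE n → WW n, j = fun t => ι (Real.smoothTransition t) := ⟨_, rfl⟩
  have hj : ContDiff ℝ ∞ (Function.uncurry j) := by
    have h1 : Function.uncurry j = Function.uncurry ι ∘
        (fun p : ℝ × EE n => (Real.smoothTransition p.1, p.2)) := by
      rw [hjd]
      rfl
    rw [h1]
    exact hι.comp ((hθ.comp contDiff_fst).prodMk contDiff_snd)
  have hj0 : j 0 = ι 0 := by
    rw [hjd]
    simp only [Real.smoothTransition.zero]
  have hj1 : j 1 = ι 1 := by
    rw [hjd]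
    simp only [Real.smoothTransition.one]
  obtain ⟨H, X, u, hH, hHc, hX, hXc, hu, huc, hom, hXu⟩ := hIEA n hn j R hj
    (fun t => by rw [hjd]; exact hiso _ (IET_theta t))
    (fun t => by rw [hjd]; exact himm _ (IET_theta t))
    (fun t => by rw [hjd]; exact hinj _ (IET_theta t))
    (fun t x hx => by rw [hjd]; exact hR _ (IET_theta t) x hx)
    (fun t x ht => by rw [hjd]; exact IET_deriv ι x t ht)
  obtain ⟨K, hK⟩ := ContDiff.lipschitzWith_of_hasCompactSupport hXc hX (by simp)
  obtain ⟨K', hK'⟩ := ContDiff.lipschitzWith_of_hasCompactSupport huc hu (by simp)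
  obtain ⟨φ, φi, hφ, hφi, hφ0, hφd, hφ1, hφ2⟩ := hFLO (WW n) X hX ⟨K, hK⟩
  obtain ⟨g, gi, hg, hgi, hg0, hgd, hg1, hg2⟩ := hFLO (EE n) u hu ⟨K', hK'⟩
  have key : ∀ x t, φ t (j 0 x) = j t (g t x) := by
    intro x t
    have h1 : (fun t => φ t (j 0 x)) = fun t => j t (g t x) := by
      refine ODE_solution_unique_univ (v := X) (s := fun _ => univ) (K := K) (t₀ := 0) ?_ ?_ ?_ ?_
      · intro t
        exact (IET_lip hK t).lipschitzOnWith
      · intro t
        exact ⟨hφd t _, mem_univ _⟩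
      · intro t
        refine ⟨?_, mem_univ _⟩
        have h2 := IET_chain hj (hgd t x)
        rw [← hXu t (g t x)] at h2
        exact h2
      · simp only [hφ0, hg0]
    exact congrFun h1 t
  refine ⟨H, φ, ⟨hH, ?_, hφ0, ?_⟩, ?_⟩
  · refine ⟨Prod.snd '' tsupport (Function.uncurry H), hHc.isCompact.image continuous_snd, ?_⟩
    intro t w hw
    by_contra hne
    exact hw ⟨(t, w), subset_tsupport _ hne, rfl⟩
  · intro t w
    exact ⟨X t (φ t w), hφd t w, fun b => hom t (φ t w) b⟩
  · rw [← hj0, ← hj1]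
    ext w
    constructor
    · rintro ⟨_, ⟨x, rfl⟩, rfl⟩
      exact ⟨g 1 x, (key x 1).symm⟩
    · rintro ⟨x, rfl⟩
      refine ⟨j 0 (gi 1 x), ⟨gi 1 x, rfl⟩, ?_⟩
      rw [key, hg1]

end Pool.Agent.Helper6.LE
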